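import Mathlib

namespace Pool.Agent.Results.MP_cf29c0_an.Log

open Set Filter Topology NNReal

def PD (γ : ℝ≥0 → ℝ≥0) : Prop := Continuous γ ∧ γ 0 = 0 ∧ ∀ r, 0 < r → 0 < γ r

def K (γ : ℝ≥0 → ℝ≥0) : Prop := PD γ ∧ StrictMono γ

def KInf (γ : ℝ≥0 → ℝ≥0) : Prop := K γ ∧ ¬ BddAbove (range γ)

variable {X U 𝒰 : Type} [NormedAddCommGroup X] [NormedAddCommGroup U] [NormedSpace ℝ U]
  [NormedAddCommGroup 𝒰] [NormedSpace ℝ 𝒰]

/-- forward complete control system; `ev` identifies inputs with functions `ℝ₊ → U` -/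
structure System (ev : 𝒰 →ₗ[ℝ] (ℝ≥0 → U)) (φ : ℝ≥0 → X → 𝒰 → X) : Prop where
  inj : Function.Injective ev
  shift : ∀ u τ, ∃ v, (∀ s, ev v s = ev u (s + τ)) ∧ ‖v‖ ≤ ‖u‖
  concat : ∀ u v t, 0 < t → ∃ w, ∀ s, ev w s = if s ≤ t then ev u s else ev v (s - t)
  init : ∀ x u, φ 0 x u = x
  causal : ∀ t x u v, (∀ s ≤ t, ev u s = ev v s) → φ t x u = φ t x v
  cont : ∀ x u, Continuous fun t => φ t x u
  cocycle : ∀ t h x u v, (∀ s, ev v s = ev u (t + s)) → φ h (φ t x u) v = φ (t + h) x u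

/-- upper right Dini derivative of `V` along the flow -/
noncomputable def dini (φ : ℝ≥0 → X → 𝒰 → X) (V : X → ℝ≥0) (u : 𝒰) (x : X) : EReal :=
  limsup (fun t : ℝ≥0 => ((((V (φ t x u) : ℝ) - V x) / t : ℝ) : EReal)) (𝓝[>] 0)

def Sandwich (V : X → ℝ≥0) : Prop := Continuous V ∧
  ∃ ψ₁ ψ₂, KInf ψ₁ ∧ KInf ψ₂ ∧ ∀ x, ψ₁ ‖x‖₊ ≤ V x ∧ V x ≤ ψ₂ ‖x‖₊

def Dissipative (φ : ℝ≥0 → X → 𝒰 → X) (V : X → ℝ≥0) : Prop := Sandwich V ∧
  ∃ α σ, KInf α ∧ K σ ∧ ∀ x u, dini φ V u x ≤ ((-α ‖x‖₊ + σ ‖u‖₊ : ℝ) : EReal)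

def Implication (φ : ℝ≥0 → X → 𝒰 → X) (V : X → ℝ≥0) : Prop := Sandwich V ∧
  ∃ χ α, KInf χ ∧ PD α ∧ ∀ x u, χ ‖u‖₊ ≤ ‖x‖₊ → dini φ V u x ≤ ((-α ‖x‖₊ : ℝ) : EReal)

lemma kid : KInf id :=
  ⟨⟨⟨continuous_id, rfl, fun _ h => h⟩, strictMono_id⟩, by simp [not_bddAbove_univ]⟩

noncomputable def lg (r : ℝ≥0) : ℝ≥0 := (Real.log (1 + r)).toNNReal

lemma lg_coe (r : ℝ≥0) : (lg r : ℝ) = Real.log (1 + r) :=
  Real.coe_toNNReal _ (Real.log_nonneg (by simp))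

lemma klg : KInf lg := by
  have m : StrictMono lg := fun a b h => by
    rw [← NNReal.coe_lt_coe, lg_coe, lg_coe]
    exact Real.log_lt_log (by positivity) (by simpa using h)
  have z : lg 0 = 0 := by simp [lg]
  refine ⟨⟨⟨continuous_real_toNNReal.comp (Continuous.log (by fun_prop) fun r => by positivity),
    z, fun r h => z ▸ m h⟩, m⟩, fun ⟨b, hb⟩ => ?_⟩
  have := NNReal.coe_le_coe.2 (hb ⟨⟨Real.exp b, by positivity⟩, rfl⟩)
  rw [lg_coe, Real.log_le_iff_le_exp (by positivity)] at this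
  exact absurd this (not_le.2 (lt_one_add (Real.exp b)))

omit [NormedAddCommGroup 𝒰] [NormedSpace ℝ 𝒰] in
lemma dn [NormedSpace ℝ X] (x : X) (u : 𝒰) :
    dini (fun t x (_ : 𝒰) => Real.exp (-t) • x) (fun x => lg ‖x‖₊) u x =
      ((-(‖x‖ / (1 + ‖x‖)) : ℝ) : EReal) := by
  have h := ((((hasDerivAt_id (0 : ℝ)).neg.exp.mul_const ‖x‖).const_add 1).log
    (by positivity)).tendsto_slope_zero_right
  have t : Tendsto (fun t : ℝ≥0 => (t : ℝ)) (𝓝[>] 0) (𝓝[>] 0) :=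
    NNReal.continuous_coe.continuousWithinAt.tendsto_nhdsWithin fun t ht => ht
  refine ((continuous_coe_real_ereal.tendsto _).comp ?_).limsup_eq
  convert h.comp t using 2 with t
  · simp [lg_coe, norm_smul, div_eq_inv_mul]
  · simp [neg_div]

theorem result : ∃ (X U 𝒰 : Type) (_ : NormedAddCommGroup X) (_ : NormedSpace ℝ X)
    (_ : NormedAddCommGroup U) (_ : NormedSpace ℝ U) (_ : NormedAddCommGroup 𝒰)
    (_ : NormedSpace ℝ 𝒰) (ev : 𝒰 →ₗ[ℝ] (ℝ≥0 → U)) (φ : ℝ≥0 → X → 𝒰 → X) (V : X → ℝ≥0),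
    ¬ Module.Finite ℝ X ∧ System ev φ ∧ Implication φ V ∧ ¬ Dissipative φ V := by
  refine ⟨lp (fun _ : ℕ => ℝ) 2, ℝ, lp (fun _ : ℝ≥0 => ℝ) ⊤, inferInstance, inferInstance,
    inferInstance, inferInstance, inferInstance, inferInstance, ⟨⟨(↑), fun _ _ => rfl⟩, fun _ _ => rfl⟩,
    fun t x _ => Real.exp (-t) • x, fun x => lg ‖x‖₊, fun h => ?_, ⟨fun _ _ => lp.ext, fun u τ => ?_,
    fun u v t _ => ?_, by simp, fun _ _ _ _ _ => rfl, fun _ _ => by fun_prop, fun t h x _ _ _ => ?_⟩,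
    ⟨⟨klg.1.1.1.comp continuous_nnnorm, lg, lg, klg, klg, fun _ => ⟨le_rfl, le_rfl⟩⟩, id,
    fun r => r / (1 + r), kid, ⟨continuous_id.div₀ (by fun_prop) fun r => by positivity, by simp,
    fun r h => by positivity⟩, fun x u _ => by simp [dn]⟩, ?_⟩
  · refine Module.Finite.not_linearIndependent_of_infinite
      (fun n : ℕ => (lp.single 2 n 1 : lp (fun _ : ℕ => ℝ) 2)) (Orthonormal.linearIndependent (𝕜 := ℝ) ?_)
    simp [orthonormal_iff_ite, lp.inner_single_left, Pi.single_apply, eq_comm]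
  · have b := lp.norm_apply_le_norm ENNReal.top_ne_zero u
    exact ⟨⟨fun s => u (s + τ), memℓp_infty ⟨‖u‖, by rintro _ ⟨s, rfl⟩; exact b _⟩⟩, fun _ => rfl,
      lp.norm_le_of_forall_le (norm_nonneg _) fun s => b _⟩
  · refine ⟨⟨fun s => if s ≤ t then u s else v (s - t), memℓp_infty ⟨max ‖u‖ ‖v‖, ?_⟩⟩, fun _ => rfl⟩
    rintro _ ⟨s, rfl⟩
    beta_reduce
    split_ifs
    · exact le_max_of_le_left (lp.norm_apply_le_norm ENNReal.top_ne_zero u _)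
    · exact le_max_of_le_right (lp.norm_apply_le_norm ENNReal.top_ne_zero v _)
  · simp [smul_smul, ← Real.exp_add]
  · rintro ⟨-, α, σ, h1, h2, h⟩
    refine h1.2 ⟨1, ?_⟩
    rintro _ ⟨r, rfl⟩
    have := h (lp.single 2 0 r) 0
    rw [dn, EReal.coe_le_coe_iff, nnnorm_zero, h2.1.2.1,
      show ‖(lp.single 2 0 r : lp (fun _ : ℕ => ℝ) 2)‖₊ = r from NNReal.eq (by simp)] at this
    have b := div_le_one_of_le₀ (le_add_of_nonneg_left zero_le_one)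
      (show 0 ≤ 1 + ‖(lp.single 2 0 r : lp (fun _ : ℕ => ℝ) 2)‖ by positivity)
    rw [← NNReal.coe_le_coe]
    simp only [NNReal.coe_zero, NNReal.coe_one] at this ⊢
    linarith

end Pool.Agent.Results.MP_cf29c0_an.Log
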